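import Pool.Agent.W_MP_1ab439_an.Assemble
import Pool.Agent.W_MP_1ab439_an.Factor

set_option autoImplicit false

namespace Pool.Agent.Results.MP_1ab439_an.BelowLiYau

open Pool.Agent.W_MP_1ab439_an

/-- The numerical factor in front of the Weyl term. For `n = 2` it is
`(s log s + 1/2) / (s - 1)`, for `n ≥ 3` it is
`((2/(n-2)) (s^(n/2) - s) + 2/(n+2)) / (s - 1)`. -/
noncomputable def factor (n : ℕ) (s : ℝ) : ℝ :=
  if n = 2 then (s * Real.log s + 1 / 2) / (s - 1)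
  else (2 / ((n : ℝ) - 2) * (s ^ ((n : ℝ) / 2) - s) + 2 / ((n : ℝ) + 2)) / (s - 1)

theorem phi_sqrt (n : ℕ) {s : ℝ} (hs : 1 < s) :
    phi n √s / (√s ^ 2 - 1) = factor n s := by
  have hs0 : 0 ≤ s := by linarith
  have h1 : √s ^ 2 = s := Real.sq_sqrt hs0
  have h2 : √s ^ n = s ^ ((n : ℝ) / 2) := by
    rw [Real.sqrt_eq_rpow, ← Real.rpow_natCast, ← Real.rpow_mul hs0]
    congr 1
    ring
  rw [phi, factor, h1, h2]
  split_ifs with hn
  · rw [Real.log_sqrt hs0]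
    congr 1
    ring
  · rfl

theorem factor_nonneg (n : ℕ) (hn : 2 ≤ n) {s : ℝ} (hs : 1 < s) : 0 ≤ factor n s := by
  have hs1 : 0 < s - 1 := by linarith
  unfold factor
  split_ifs with h
  · have := Real.log_nonneg hs.le
    positivity
  · have hn3 : (3 : ℝ) ≤ n := by
      have : 3 ≤ n := by omega
      exact_mod_cast this
    have h1 : s ≤ s ^ ((n : ℝ) / 2) := by
      calc s = s ^ (1 : ℝ) := (Real.rpow_one s).symm
        _ ≤ s ^ ((n : ℝ) / 2) := Real.rpow_le_rpow_of_exponent_le hs.le (by linarith)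
    have h2 : 0 ≤ s ^ ((n : ℝ) / 2) - s := by linarith
    have h3 : 0 < (n : ℝ) - 2 := by linarith
    positivity

theorem count (n : ℕ) (hn : 2 ≤ n) (Ω : Set (EuclideanSpace ℝ (Fin n))) (ho : IsOpen Ω)
    (hb : Bornology.IsBounded Ω) (lam : ℝ) (hl : 0 < lam)
    (V : Submodule ℝ (EuclideanSpace ℝ (Fin n) → ℝ))
    (hV : ∀ u ∈ V, ContDiff ℝ (⊤ : ℕ∞) u ∧ HasCompactSupport u ∧ tsupport u ⊆ Ω)
    (hE : ∀ u ∈ V, u ≠ 0 → ∫ x, ‖fderiv ℝ u x‖ ^ 2 < lam * ∫ x, (u x) ^ 2)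
    (s : ℝ) (hs : 1 < s) :
    (Module.finrank ℝ V : ℝ) ≤ factor n s *
      ((4 * Real.pi) ^ (-(n : ℝ) / 2) / Real.Gamma (1 + (n : ℝ) / 2)
        * lam ^ ((n : ℝ) / 2) * (MeasureTheory.volume Ω).toReal) := by
  by_cases hfin : FiniteDimensional ℝ V
  · obtain ⟨S⟩ := exists_sys hl V hV hE
    have hR0 : 0 < √lam / (2 * Real.pi) := by positivity
    have hR : (√lam / (2 * Real.pi)) ^ 2 = lam / (4 * Real.pi ^ 2) := by
      rw [div_pow, Real.sq_sqrt hl.le]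
      ring
    have hq : 1 < √s := by
      rw [Real.lt_sqrt (by norm_num)]
      linarith
    have h := S.count_le hn ho hb hl hR0 hR hq
    rw [weyl_eq (by omega) hl, phi_sqrt n hs] at h
    exact h
  · rw [Module.finrank_of_infinite_dimensional hfin, Nat.cast_zero]
    have h1 := factor_nonneg n hn hs
    have h2 : 0 < Real.Gamma (1 + (n : ℝ) / 2) := Real.Gamma_pos_of_pos (by positivity)
    positivity

theorem improves (n : ℕ) (hn : 3 ≤ n) :
    factor n (1 + 2 / (n : ℝ)) < (1 + 2 / (n : ℝ)) ^ ((n : ℝ) / 2) := by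
  have hn3 : (3 : ℝ) ≤ n := by exact_mod_cast hn
  have hn0 : (0 : ℝ) < n := by linarith
  have hp : 0 < (n : ℝ) / 2 - 1 := by linarith
  have hs : 1 < 1 + 2 / (n : ℝ) := by
    have : 0 < 2 / (n : ℝ) := by positivity
    linarith
  have h := gap_pos hp hs
  have e1 : (n : ℝ) / 2 - 1 + 1 = n / 2 := by ring
  have e2 : (n : ℝ) / 2 - 1 + 2 = n / 2 + 1 := by ring
  rw [e1, e2, Real.rpow_add (by linarith), Real.rpow_one] at h
  have hn2 : (0 : ℝ) < n - 2 := by linarith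
  have h3 : 1 / ((n : ℝ) / 2 - 1) = 2 / (n - 2) := by
    rw [div_eq_div_iff hp.ne' hn2.ne']
    ring
  have h4 : 1 / ((n : ℝ) / 2 + 1) = 2 / (n + 2) := by
    rw [div_eq_div_iff (by positivity) (by positivity)]
    ring
  rw [h3, h4] at h
  unfold factor
  rw [if_neg (by omega)]
  rw [div_lt_iff₀ (by linarith)]
  refine lt_of_lt_of_eq h ?_
  field_simp
  ring

theorem three : factor 3 (16 / 9) < 2.0382 := by
  unfold factor
  rw [if_neg (by norm_num)]
  have h : ((16 / 9 : ℝ)) ^ (((3 : ℕ) : ℝ) / 2) = 64 / 27 := by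
    have h1 : (16 / 9 : ℝ) = (4 / 3) ^ (2 : ℝ) := by
      rw [show (2 : ℝ) = ((2 : ℕ) : ℝ) by norm_num, Real.rpow_natCast]
      norm_num
    rw [h1, ← Real.rpow_mul (by norm_num)]
    rw [show (2 : ℝ) * (((3 : ℕ) : ℝ) / 2) = ((3 : ℕ) : ℝ) by norm_num, Real.rpow_natCast]
    norm_num
  rw [h]
  norm_num

theorem two : factor 2 (7 / 3) < 1.858 := by
  unfold factor
  rw [if_pos rfl, div_lt_iff₀ (by norm_num)]
  have := log_bound
  linarith

/-- Improvement of the Li–Yau bound for the counting function of the Dirichlet Laplacian of an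
arbitrary bounded open set in every dimension `n ≥ 2`. -/
theorem result :
    (∀ n : ℕ, 2 ≤ n →
      ∀ Ω : Set (EuclideanSpace ℝ (Fin n)), IsOpen Ω → Bornology.IsBounded Ω →
      ∀ lam : ℝ, 0 < lam →
      ∀ V : Submodule ℝ (EuclideanSpace ℝ (Fin n) → ℝ),
        (∀ u ∈ V, ContDiff ℝ (⊤ : ℕ∞) u ∧ HasCompactSupport u ∧ tsupport u ⊆ Ω) →
        (∀ u ∈ V, u ≠ 0 → ∫ x, ‖fderiv ℝ u x‖ ^ 2 < lam * ∫ x, (u x) ^ 2) →
        ∀ s : ℝ, 1 < s →
          (Module.finrank ℝ V : ℝ) ≤ factor n s *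
            ((4 * Real.pi) ^ (-(n : ℝ) / 2) / Real.Gamma (1 + (n : ℝ) / 2)
              * lam ^ ((n : ℝ) / 2) * (MeasureTheory.volume Ω).toReal)) ∧
    (∀ n : ℕ, 2 ≤ n → ∃ s : ℝ, 1 < s ∧ factor n s < (1 + 2 / (n : ℝ)) ^ ((n : ℝ) / 2)) ∧
    factor 2 (7 / 3) < 1.858 ∧ factor 3 (16 / 9) < 2.0382 := by
  refine ⟨count, fun n hn => ?_, two, three⟩
  rcases Nat.lt_or_ge 2 n with h | h
  · refine ⟨1 + 2 / (n : ℝ), ?_, improves n h⟩
    have h0 : (0 : ℝ) < n := by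
      have : 0 < n := by omega
      exact_mod_cast this
    have : 0 < 2 / (n : ℝ) := by positivity
    linarith
  · have h2 : n = 2 := le_antisymm h hn
    subst h2
    refine ⟨7 / 3, by norm_num, ?_⟩
    refine two.trans ?_
    norm_num

end Pool.Agent.Results.MP_1ab439_an.BelowLiYau
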