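import Pool.Agent.W_MP_1ab439_h2.Core
import Pool.Agent.W_MP_1ab439_h2.Num

set_option autoImplicit false

open MeasureTheory Real

namespace Pool.Agent.Results.MP_1ab439_an.HighDimension

open Pool.Agent.W_MP_1ab439_an Pool.Agent.W_MP_1ab439_h2

theorem weyl_form {n : ℕ} (hn : 1 ≤ n) {lam : ℝ} (hl : 0 < lam) (v : ℝ) :
    (4 * Real.pi) ^ (-(n : ℝ) / 2) / Real.Gamma (1 + (n : ℝ) / 2) * lam ^ ((n : ℝ) / 2) * v =
      tau n * (√lam / (2 * π)) ^ n * v := by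
  rw [← weyl_eq hn hl]
  rfl

theorem count_fin (n : ℕ) (hn : 12 ≤ n) (Ω : Set (EuclideanSpace ℝ (Fin n))) (ho : IsOpen Ω)
    (hb : Bornology.IsBounded Ω) (lam : ℝ) (hl : 0 < lam)
    (hw : (4 * Real.pi) ^ (-(n : ℝ) / 2) / Real.Gamma (1 + (n : ℝ) / 2) * lam ^ ((n : ℝ) / 2) *
      (MeasureTheory.volume Ω).toReal ≤ ((n : ℝ) / 12) ^ ((n : ℝ) / 2))
    (V : Submodule ℝ (EuclideanSpace ℝ (Fin n) → ℝ)) [FiniteDimensional ℝ V]
    (hV : ∀ u ∈ V, ContDiff ℝ (⊤ : ℕ∞) u ∧ HasCompactSupport u ∧ tsupport u ⊆ Ω)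
    (hE : ∀ u ∈ V, u ≠ 0 → ∫ x, ‖fderiv ℝ u x‖ ^ 2 < lam * ∫ x, (u x) ^ 2) :
    (Module.finrank ℝ V : ℝ) ≤
      (4 * Real.pi) ^ (-(n : ℝ) / 2) / Real.Gamma (1 + (n : ℝ) / 2)
        * lam ^ ((n : ℝ) / 2) * (MeasureTheory.volume Ω).toReal := by
  have hn1 : 1 ≤ n := by omega
  have hn0 : (0 : ℝ) < n := by
    have : 0 < n := by omega
    exact_mod_cast this
  rw [weyl_form hn1 hl] at hw ⊢
  obtain ⟨S⟩ := exists_sys hl V hV hE
  set R : ℝ := √lam / (2 * π) with hRd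
  have hR0 : 0 < R := by positivity
  have hR : R ^ 2 = lam / (4 * π ^ 2) := by
    rw [hRd, div_pow, Real.sq_sqrt hl.le]
    ring
  set v : ℝ := (volume Ω).toReal with hv
  have hv0 : 0 ≤ v := ENNReal.toReal_nonneg
  set ρ : ℝ := R * √(12 / n) with hρ
  have hρ0 : 0 < ρ := by positivity
  have hρ2 : ρ ^ 2 * n = 12 * R ^ 2 := by
    rw [hρ, mul_pow, Real.sq_sqrt (by positivity)]
    field_simp
  have hpow : ((n : ℝ) / 12) ^ ((n : ℝ) / 2) = √((n : ℝ) / 12) ^ n := by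
    rw [Real.sqrt_eq_rpow, ← Real.rpow_natCast, ← Real.rpow_mul (by positivity)]
    congr 1
    ring
  have hone : √((n : ℝ) / 12) * √(12 / (n : ℝ)) = 1 := by
    rw [← Real.sqrt_mul (by positivity)]
    have : (n : ℝ) / 12 * (12 / n) = 1 := by
      field_simp
    rw [this, Real.sqrt_one]
  have hvol : tau n * ρ ^ n * v ≤ 1 := by
    have e : tau n * ρ ^ n * v = (tau n * R ^ n * v) * √(12 / (n : ℝ)) ^ n := by
      rw [hρ, mul_pow]
      ring
    rw [e]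
    calc (tau n * R ^ n * v) * √(12 / (n : ℝ)) ^ n
        ≤ √((n : ℝ) / 12) ^ n * √(12 / (n : ℝ)) ^ n := by
          rw [← hpow]
          exact mul_le_mul_of_nonneg_right hw (by positivity)
      _ = 1 := by rw [← mul_pow, hone, one_pow]
  have h := core S hn1 ho hb hR0 hR hρ0 hρ2 hvol
  have hfin := final_num n hn
  set N : ℝ := (Module.finrank ℝ V : ℝ) with hN
  set E : ℝ := 1 + 3 / ((n : ℝ) + 2) + 16 / (((n : ℝ) + 2) * ((n : ℝ) + 4)) with hEd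
  set W : ℝ := tau n * R ^ n * v with hW
  have hW0 : 0 ≤ W := mul_nonneg (mul_nonneg (tau_pos n).le (by positivity)) hv0
  have e1 : √(R ^ 2 * (((n : ℝ) + 4) / n)) ^ (n + 4) =
      R ^ n * R ^ 4 * (√(((n : ℝ) + 4) / n) ^ n * (((n : ℝ) + 4) / n) ^ 2) := by
    rw [Real.sqrt_mul (by positivity), Real.sqrt_sq hR0.le, mul_pow, pow_add, pow_add]
    have : √(((n : ℝ) + 4) / n) ^ 4 = (((n : ℝ) + 4) / n) ^ 2 := by
      rw [show (4 : ℕ) = 2 * 2 by norm_num, pow_mul, Real.sq_sqrt (by positivity)]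
    rw [this]
  rw [e1] at h
  have e2 : tau n * (8 / (((n : ℝ) + 2) * ((n : ℝ) + 4))) *
      (R ^ n * R ^ 4 * (√(((n : ℝ) + 4) / n) ^ n * (((n : ℝ) + 4) / n) ^ 2)) *
        (rexp (-(3 / 2)) * (v * E)) =
      (4 * R ^ 2 / n) ^ 2 * (W * (1 / 2 * (((n : ℝ) + 4) / (n + 2)) *
        √(((n : ℝ) + 4) / n) ^ n * exp (-(3 / 2)) * E)) := by
    rw [hW]
    field_simp
    ring
  rw [e2, mul_comm N] at h
  have h2 := le_of_mul_le_mul_left h (by positivity : 0 < (4 * R ^ 2 / (n : ℝ)) ^ 2)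
  exact h2.trans (mul_le_of_le_one_right hW0 hfin)

/-- Polya's inequality for all eigenvalues up to number `(n/12)^(n/2)`, in every dimension
`n ≥ 12` and for every bounded open set. -/
theorem result :
    ∀ n : ℕ, 12 ≤ n →
    ∀ Ω : Set (EuclideanSpace ℝ (Fin n)), IsOpen Ω → Bornology.IsBounded Ω →
    ∀ lam : ℝ, 0 < lam →
      (4 * Real.pi) ^ (-(n : ℝ) / 2) / Real.Gamma (1 + (n : ℝ) / 2)
        * lam ^ ((n : ℝ) / 2) * (MeasureTheory.volume Ω).toReal ≤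
          ((n : ℝ) / 12) ^ ((n : ℝ) / 2) →
    ∀ V : Submodule ℝ (EuclideanSpace ℝ (Fin n) → ℝ),
      (∀ u ∈ V, ContDiff ℝ (⊤ : ℕ∞) u ∧ HasCompactSupport u ∧ tsupport u ⊆ Ω) →
      (∀ u ∈ V, u ≠ 0 →
        ∫ x, ‖fderiv ℝ u x‖ ^ 2 < lam * ∫ x, (u x) ^ 2) →
      FiniteDimensional ℝ V ∧
      (Module.finrank ℝ V : ℝ) ≤
        (4 * Real.pi) ^ (-(n : ℝ) / 2) / Real.Gamma (1 + (n : ℝ) / 2)
          * lam ^ ((n : ℝ) / 2) * (MeasureTheory.volume Ω).toReal := by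
  intro n hn Ω ho hb lam hl hw V hV hE
  have hfd : FiniteDimensional ℝ V := by
    by_contra hinf
    obtain ⟨M, hM⟩ := exists_nat_gt ((4 * Real.pi) ^ (-(n : ℝ) / 2) /
      Real.Gamma (1 + (n : ℝ) / 2) * lam ^ ((n : ℝ) / 2) * (MeasureTheory.volume Ω).toReal)
    have hr : (M : Cardinal) ≤ Module.rank ℝ V := by
      have hinf2 : ¬ Module.Finite ℝ V := hinf
      rw [← Module.rank_lt_aleph0_iff, not_lt] at hinf2
      exact (Cardinal.natCast_lt_aleph0).le.trans hinf2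
    obtain ⟨s, hs, hind⟩ := exists_finset_linearIndependent_of_le_rank hr
    set V₀ : Submodule ℝ V := Submodule.span ℝ (s : Set V) with hV₀
    have : FiniteDimensional ℝ V₀ := FiniteDimensional.span_of_finite ℝ s.finite_toSet
    have hrank : Module.finrank ℝ V₀ = M := by
      have h := finrank_span_set_eq_card (R := ℝ) (s := (s : Set V)) hind
      rw [hV₀, h]
      simp [hs]
    set V₁ : Submodule ℝ (EuclideanSpace ℝ (Fin n) → ℝ) := V₀.map V.subtype with hV₁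
    have : FiniteDimensional ℝ V₁ := Module.Finite.map V₀ V.subtype
    have hrank1 : Module.finrank ℝ V₁ = M := by
      rw [hV₁, Submodule.finrank_map_subtype_eq]
      exact hrank
    have hsub : ∀ u ∈ V₁, u ∈ V := by
      rintro u ⟨w, _, rfl⟩
      exact w.2
    have h := count_fin n hn Ω ho hb lam hl hw V₁ (fun u hu => hV u (hsub u hu))
      (fun u hu => hE u (hsub u hu))
    rw [hrank1] at h
    linarith
  exact ⟨hfd, count_fin n hn Ω ho hb lam hl hw V hV hE⟩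

end Pool.Agent.Results.MP_1ab439_an.HighDimension
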