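import Pool.Agent.W_1ab439_h81.Final

/-!
Polya's inequality for `k = 1, 2, 3` on every bounded open subset of the plane, in the variational form
of the frozen statement S03967 with `n = 2`.
-/

set_option autoImplicit false

namespace Pool.Agent.Results.MP_1ab439_an.ThirdEigenvalue

/-- If `lam * |Ω| ≤ 12 π`, a space of smooth functions with compact support in the bounded open set
`Ω ⊂ ℝ²` on which `∫ |∇u|² < lam ∫ u²` (for nonzero `u`) has dimension at most `2` and at most
`lam |Ω| / (4 π)`. -/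
theorem result :
    ∀ Ω : Set (EuclideanSpace ℝ (Fin 2)), IsOpen Ω → Bornology.IsBounded Ω →
    ∀ lam : ℝ, 0 < lam →
    lam * (MeasureTheory.volume Ω).toReal ≤ 12 * Real.pi →
    ∀ V : Submodule ℝ (EuclideanSpace ℝ (Fin 2) → ℝ),
      (∀ u ∈ V, ContDiff ℝ (⊤ : ℕ∞) u ∧ HasCompactSupport u ∧ tsupport u ⊆ Ω) →
      (∀ u ∈ V, u ≠ 0 →
        ∫ x, ‖fderiv ℝ u x‖ ^ 2 < lam * ∫ x, (u x) ^ 2) →
      FiniteDimensional ℝ V ∧ Module.finrank ℝ V ≤ 2 ∧
        (Module.finrank ℝ V : ℝ) ≤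
          lam * (MeasureTheory.volume Ω).toReal / (4 * Real.pi) := by
  intro Ω ho hb lam hl hw V hV hE
  exact Pool.Agent.W_1ab439_h81.polya_three ho hb hl hw hV hE

end Pool.Agent.Results.MP_1ab439_an.ThirdEigenvalue
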